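import Pool.Agent.H640R2.PhaseMuC

/-!
# The centre of an operator (Stampfli): a maximal vector orthogonal to its image
-/

set_option autoImplicit false

open Filter Topology

namespace Pool.Agent.J4.H40.QN

variable {E : Type*} [NormedAddCommGroup E] [InnerProductSpace ℂ E] [FiniteDimensional ℂ E]

theorem exists_max [Nontrivial E] (B : E →L[ℂ] E) : ∃ x : E, ‖x‖ = 1 ∧ ‖B x‖ = ‖B‖ := by
  have : ProperSpace E := FiniteDimensional.proper ℂ E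
  obtain ⟨x0, hx0⟩ := exists_norm_eq E zero_le_one
  obtain ⟨x, hx, hmax⟩ := (isCompact_sphere (0 : E) 1).exists_isMaxOn
    ⟨x0, mem_sphere_zero_iff_norm.2 hx0⟩ (f := fun x => ‖B x‖) (by fun_prop)
  have hx1 : ‖x‖ = 1 := mem_sphere_zero_iff_norm.1 hx
  refine ⟨x, hx1, le_antisymm ?_ ?_⟩
  · calc ‖B x‖ ≤ ‖B‖ * ‖x‖ := B.le_opNorm x
      _ = ‖B‖ := by rw [hx1, mul_one]
  · refine ContinuousLinearMap.opNorm_le_bound _ (norm_nonneg _) fun y => ?_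
    by_cases hy : y = 0
    · rw [hy, map_zero, norm_zero, mul_zero]
    have hyn : ‖y‖ ≠ 0 := norm_ne_zero_iff.2 hy
    have h1 : ‖B (((‖y‖⁻¹ : ℝ) : ℂ) • y)‖ ≤ ‖B x‖ := by
      apply hmax
      rw [mem_sphere_zero_iff_norm, norm_smul, Complex.norm_real, norm_inv, norm_norm,
        inv_mul_cancel₀ hyn]
    rw [map_smul, norm_smul, Complex.norm_real, norm_inv, norm_norm,
      inv_mul_le_iff₀ (lt_of_le_of_ne (norm_nonneg _) (Ne.symm hyn))] at h1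
    linarith [mul_comm ‖y‖ ‖B x‖]

theorem sq_expand (B : E →L[ℂ] E) (μ : ℂ) (x : E) (hx : ‖x‖ = 1) :
    ‖(B + (starRingEnd ℂ) μ • (1 : E →L[ℂ] E)) x‖ ^ 2 =
      ‖B x‖ ^ 2 + 2 * (μ * inner ℂ x (B x)).re + ‖μ‖ ^ 2 := by
  have e : (B + (starRingEnd ℂ) μ • (1 : E →L[ℂ] E)) x = B x + (starRingEnd ℂ) μ • x := rfl
  rw [e, norm_add_sq (𝕜 := ℂ), norm_smul, hx, RCLike.norm_conj, mul_one, inner_smul_right]
  have h2 : (RCLike.re ((starRingEnd ℂ) μ * inner ℂ (B x) x) : ℝ) = (μ * inner ℂ x (B x)).re := by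
    have h3 : (starRingEnd ℂ) μ * inner ℂ (B x) x = (starRingEnd ℂ) (μ * inner ℂ x (B x)) := by
      rw [map_mul, inner_conj_symm]
    rw [h3]
    exact Complex.conj_re _
  rw [h2]

theorem mem_max (B : E →L[ℂ] E) (x : E) (h : ‖B x‖ = ‖B‖ * ‖x‖) :
    (ContinuousLinearMap.adjoint B) (B x) = ((‖B‖ : ℂ) ^ 2) • x := by
  set M := ‖B‖ with hM
  have h1 : ‖(ContinuousLinearMap.adjoint B) (B x)‖ ≤ M * ‖B x‖ := by
    calc _ ≤ ‖ContinuousLinearMap.adjoint B‖ * ‖B x‖ := ContinuousLinearMap.le_opNorm _ _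
      _ = M * ‖B x‖ := by rw [LinearIsometryEquiv.norm_map]
  have h2 : ‖(ContinuousLinearMap.adjoint B) (B x) - ((M : ℂ) ^ 2) • x‖ ^ 2 ≤ 0 := by
    rw [norm_sub_sq (𝕜 := ℂ), inner_smul_right, ContinuousLinearMap.adjoint_inner_left,
      norm_smul]
    have h3 : (RCLike.re (((M : ℂ) ^ 2) * inner ℂ (B x) (B x)) : ℝ) = M ^ 2 * ‖B x‖ ^ 2 := by
      rw [inner_self_eq_norm_sq_to_K]
      have : ((M : ℂ) ^ 2 * (‖B x‖ : ℂ) ^ 2) = ((M ^ 2 * ‖B x‖ ^ 2 : ℝ) : ℂ) := by push_cast; rfl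
      exact (congrArg RCLike.re this).trans (RCLike.ofReal_re (K := ℂ) _)
    have h4 : ‖((M : ℂ)) ^ 2‖ = M ^ 2 := by
      rw [norm_pow, Complex.norm_real, norm_norm]
    rw [h4]
    have h5 : (RCLike.re (((M : ℂ) ^ 2) * inner ℂ (B x) (B x)) : ℝ) = M ^ 2 * ‖B x‖ ^ 2 := h3
    rw [h5, h]
    have h6 : ‖(ContinuousLinearMap.adjoint B) (B x)‖ ^ 2 ≤ (M * ‖B x‖) ^ 2 := by gcongr
    rw [h] at h6
    nlinarith
  have h7 : ‖(ContinuousLinearMap.adjoint B) (B x) - ((M : ℂ) ^ 2) • x‖ = 0 := by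
    nlinarith [norm_nonneg ((ContinuousLinearMap.adjoint B) (B x) - ((M : ℂ) ^ 2) • x)]
  exact sub_eq_zero.1 (norm_eq_zero.1 h7)

theorem mem_max' (B : E →L[ℂ] E) (x : E)
    (h : (ContinuousLinearMap.adjoint B) (B x) = ((‖B‖ : ℂ) ^ 2) • x) : ‖B x‖ = ‖B‖ * ‖x‖ := by
  have h1 : (inner ℂ (B x) (B x) : ℂ) = inner ℂ x (((‖B‖ : ℂ) ^ 2) • x) := by
    rw [← h, ContinuousLinearMap.adjoint_inner_right]
  rw [inner_smul_right, inner_self_eq_norm_sq_to_K, inner_self_eq_norm_sq_to_K] at h1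
  have h2 : ‖B x‖ ^ 2 = (‖B‖ * ‖x‖) ^ 2 := by
    have h3 : (((‖B x‖ ^ 2 : ℝ)) : ℂ) = (((‖B‖ * ‖x‖) ^ 2 : ℝ) : ℂ) := by
      push_cast
      rw [mul_pow]
      exact h1
    exact_mod_cast h3
  exact (pow_left_inj₀ (norm_nonneg _) (by positivity) two_ne_zero).1 h2

/-- **Stampfli / Bhatia–Semrl**: if `‖B‖ ≤ ‖B + μ‖` for all `μ`, some maximal unit vector of `B` is
orthogonal to its image. -/
theorem stampfli [Nontrivial E] (B : E →L[ℂ] E)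
    (hmin : ∀ μ : ℂ, ‖B‖ ≤ ‖B + μ • (1 : E →L[ℂ] E)‖) :
    ∃ x : E, ‖x‖ = 1 ∧ ‖B x‖ = ‖B‖ ∧ inner ℂ x (B x) = (0 : ℂ) := by
  by_contra hcon
  have : ProperSpace E := FiniteDimensional.proper ℂ E
  set V : Submodule ℂ E := LinearMap.ker
    (((ContinuousLinearMap.adjoint B).comp B - ((‖B‖ : ℂ) ^ 2) • (1 : E →L[ℂ] E) : E →L[ℂ] E) :
      E →ₗ[ℂ] E) with hV
  have hmem : ∀ x : E, x ∈ V ↔ (ContinuousLinearMap.adjoint B) (B x) = ((‖B‖ : ℂ) ^ 2) • x := by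
    intro x
    rw [hV, LinearMap.mem_ker]
    exact sub_eq_zero
  obtain ⟨κ, δ, hδ, -, hκ⟩ := H640R2.PhaseMu.separation (E := V)
    ((V.orthogonalProjectionOnto).comp (B.comp V.subtypeL)) {0} (convex_singleton 0)
    isClosed_singleton rfl (by
      intro c _ z hz
      rw [Set.mem_singleton_iff] at hz ⊢
      rw [hz, mul_zero]) (by
      intro x hx h0
      rw [Set.mem_singleton_iff] at h0
      refine hcon ⟨x, hx, ?_, ?_⟩
      · have := mem_max' B x ((hmem x).1 x.2)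
        rw [this]
        have hx' : ‖(x : E)‖ = 1 := hx
        rw [hx', mul_one]
      · have h1 : (inner ℂ x (V.orthogonalProjectionOnto (B (x : E))) : ℂ) = 0 := h0
        rw [Submodule.inner_orthogonalProjectionOnto_eq_of_mem_left] at h1
        exact h1)
  have hκ' : ∀ x : E, x ∈ V → (κ * inner ℂ x (B x)).re ≤ -δ * ‖x‖ ^ 2 := by
    intro x hx
    have h1 := hκ ⟨x, hx⟩
    have h2 : (inner ℂ (⟨x, hx⟩ : V) (V.orthogonalProjectionOnto (B ((⟨x, hx⟩ : V) : E))) : ℂ) =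
        inner ℂ x (B x) := Submodule.inner_orthogonalProjectionOnto_eq_of_mem_left _ _
    rw [← h2]
    exact h1
  have hex : ∀ n : ℕ, ∃ x : E, ‖x‖ = 1 ∧
      ‖(B + (starRingEnd ℂ) (((1 / ((n : ℝ) + 1) : ℝ) : ℂ) * κ) • (1 : E →L[ℂ] E)) x‖ =
        ‖B + (starRingEnd ℂ) (((1 / ((n : ℝ) + 1) : ℝ) : ℂ) * κ) • (1 : E →L[ℂ] E)‖ :=
    fun n => exists_max _
  choose u hu1 hu2 using hex
  have h0 : ∀ n : ℕ, 0 ≤ 2 * (κ * inner ℂ (u n) (B (u n))).re + 1 / ((n : ℝ) + 1) * ‖κ‖ ^ 2 := by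
    intro n
    have ht : (0 : ℝ) < 1 / ((n : ℝ) + 1) := by positivity
    have h1 := sq_expand B (((1 / ((n : ℝ) + 1) : ℝ) : ℂ) * κ) (u n) (hu1 n)
    rw [hu2] at h1
    have h2 := hmin ((starRingEnd ℂ) (((1 / ((n : ℝ) + 1) : ℝ) : ℂ) * κ))
    have h3 : ‖B (u n)‖ ≤ ‖B‖ := by
      calc ‖B (u n)‖ ≤ ‖B‖ * ‖u n‖ := B.le_opNorm _
        _ = ‖B‖ := by rw [hu1, mul_one]
    have h4 : ‖B (u n)‖ ^ 2 ≤ ‖B + (starRingEnd ℂ) (((1 / ((n : ℝ) + 1) : ℝ) : ℂ) * κ) •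
        (1 : E →L[ℂ] E)‖ ^ 2 := by
      have := h3.trans h2
      gcongr
    rw [h1, mul_assoc, Complex.re_ofReal_mul, norm_mul, Complex.norm_real,
      Real.norm_of_nonneg ht.le] at h4
    have h5 : 0 ≤ 1 / ((n : ℝ) + 1) * (2 * (κ * inner ℂ (u n) (B (u n))).re +
        1 / ((n : ℝ) + 1) * ‖κ‖ ^ 2) := by nlinarith
    exact (mul_nonneg_iff_of_pos_left ht).1 h5
  obtain ⟨x, hx, φ, hφ, hlim⟩ := (isCompact_sphere (0 : E) 1).tendsto_subseq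
    (fun n => mem_sphere_zero_iff_norm.2 (hu1 n))
  have hx1 : ‖x‖ = 1 := mem_sphere_zero_iff_norm.1 hx
  have ht0 : Tendsto (fun n : ℕ => 1 / ((φ n : ℝ) + 1)) atTop (𝓝 0) :=
    tendsto_one_div_add_atTop_nhds_zero_nat.comp hφ.tendsto_atTop
  have hBl : Tendsto (fun n => B ((u ∘ φ) n)) atTop (𝓝 (B x)) :=
    (B.continuous.tendsto x).comp hlim
  have hl1 : Tendsto (fun n => 2 * (κ * inner ℂ ((u ∘ φ) n) (B ((u ∘ φ) n))).re +
      1 / ((φ n : ℝ) + 1) * ‖κ‖ ^ 2) atTop (𝓝 (2 * (κ * inner ℂ x (B x)).re + 0 * ‖κ‖ ^ 2)) := by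
    refine Tendsto.add (Tendsto.const_mul _ ?_) (ht0.mul_const _)
    exact (Complex.continuous_re.tendsto _).comp ((hlim.inner hBl).const_mul κ)
  have hlim0 : 0 ≤ 2 * (κ * inner ℂ x (B x)).re + 0 * ‖κ‖ ^ 2 :=
    ge_of_tendsto hl1 (Eventually.of_forall fun n => h0 (φ n))
  have hxB : ‖B‖ ≤ ‖B x‖ := by
    have h1 : ∀ n : ℕ, ‖B‖ ≤ ‖B ((u ∘ φ) n)‖ + 1 / ((φ n : ℝ) + 1) * ‖κ‖ := by
      intro n
      have ht : (0 : ℝ) < 1 / ((φ n : ℝ) + 1) := by positivity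
      have h2 := hmin ((starRingEnd ℂ) (((1 / ((φ n : ℝ) + 1) : ℝ) : ℂ) * κ))
      rw [← hu2 (φ n)] at h2
      refine h2.trans ?_
      have e : (B + (starRingEnd ℂ) (((1 / ((φ n : ℝ) + 1) : ℝ) : ℂ) * κ) • (1 : E →L[ℂ] E))
        (u (φ n)) = B (u (φ n)) + (starRingEnd ℂ) (((1 / ((φ n : ℝ) + 1) : ℝ) : ℂ) * κ) • u (φ n) :=
        rfl
      rw [e]
      refine (norm_add_le _ _).trans ?_
      rw [norm_smul, RCLike.norm_conj, norm_mul, Complex.norm_real, Real.norm_of_nonneg ht.le,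
        hu1, mul_one]
      rfl
    have h3 : Tendsto (fun n => ‖B ((u ∘ φ) n)‖ + 1 / ((φ n : ℝ) + 1) * ‖κ‖) atTop
        (𝓝 (‖B x‖ + 0 * ‖κ‖)) := hBl.norm.add (ht0.mul_const _)
    have h4 := ge_of_tendsto h3 (Eventually.of_forall h1)
    rw [zero_mul, add_zero] at h4
    exact h4
  have hxV : x ∈ V := by
    rw [hmem]
    refine mem_max B x (le_antisymm (B.le_opNorm x) ?_)
    rw [hx1, mul_one]
    exact hxB
  have h5 := hκ' x hxV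
  rw [hx1] at h5
  linarith

/-- the centre -/
theorem exists_center [Nontrivial E] (A : E →L[ℂ] E) : ∃ c : ℂ, ∃ x : E, ‖x‖ = 1 ∧
    ‖(A - c • (1 : E →L[ℂ] E)) x‖ = ‖A - c • (1 : E →L[ℂ] E)‖ ∧
      inner ℂ x ((A - c • (1 : E →L[ℂ] E)) x) = (0 : ℂ) := by
  obtain ⟨c, hc, hcmin⟩ := (isCompact_closedBall (0 : ℂ) (2 * ‖A‖)).exists_isMinOn
    ⟨0, Metric.mem_closedBall_self (by positivity)⟩
    (f := fun c : ℂ => ‖A - c • (1 : E →L[ℂ] E)‖) (by fun_prop)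
  have hall : ∀ d : ℂ, ‖A - c • (1 : E →L[ℂ] E)‖ ≤ ‖A - d • (1 : E →L[ℂ] E)‖ := by
    intro d
    by_cases hd : ‖d‖ ≤ 2 * ‖A‖
    · exact hcmin (by rw [mem_closedBall_zero_iff]; exact hd)
    · push Not at hd
      have h0 : ‖A - c • (1 : E →L[ℂ] E)‖ ≤ ‖A - (0 : ℂ) • (1 : E →L[ℂ] E)‖ :=
        hcmin (Metric.mem_closedBall_self (by positivity))
      rw [zero_smul, sub_zero] at h0
      have h1 : ‖d • (1 : E →L[ℂ] E)‖ = ‖d‖ := by rw [norm_smul, norm_one, mul_one]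
      have h2 : ‖d • (1 : E →L[ℂ] E)‖ ≤ ‖A‖ + ‖A - d • (1 : E →L[ℂ] E)‖ := by
        have : d • (1 : E →L[ℂ] E) = A - (A - d • (1 : E →L[ℂ] E)) := by abel
        rw [this]
        exact (norm_sub_le _ _).trans (by rw [← this])
      linarith
  obtain ⟨x, h1, h2, h3⟩ := stampfli (A - c • (1 : E →L[ℂ] E)) (by
    intro μ
    have := hall (c - μ)
    have e : A - (c - μ) • (1 : E →L[ℂ] E) = A - c • (1 : E →L[ℂ] E) + μ • (1 : E →L[ℂ] E) := by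
      rw [sub_smul]; abel
    rw [e] at this
    exact this)
  exact ⟨c, x, h1, h2, h3⟩

end Pool.Agent.J4.H40.QN
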