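import Pool.Agent.W753.CZ.Toep

/-!
# The von Neumann inequality for polynomials in a contraction
-/

set_option autoImplicit false

open Finset Complex Polynomial

namespace Pool.Agent.J4.H40.QN

variable {E : Type*} [NormedAddCommGroup E] [InnerProductSpace ℂ E]

/-- partial sums `∑_{j ≤ i} w^j T^j x` -/
noncomputable def ps (T : E →L[ℂ] E) (w : ℂ) (x : E) : ℕ → E
  | 0 => x
  | i + 1 => x + w • T (ps T w x i)

theorem ps_eq (T : E →L[ℂ] E) (w : ℂ) (x : E) (i : ℕ) :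
    ps T w x i = ∑ j ∈ range (i + 1), w ^ j • (T ^ j) x := by
  induction i with
  | zero => simp [ps]
  | succ i ih =>
    rw [ps, ih, sum_range_succ' _ (i + 1), map_sum, smul_sum, add_comm]
    congr 1
    · refine sum_congr rfl fun j _ => ?_
      rw [map_smul, smul_smul, ← pow_succ', pow_succ' T j]
      rfl
    · simp

/-- the defect form -/
noncomputable def df (T : E →L[ℂ] E) (x y : E) : ℂ := inner ℂ y x - inner ℂ (T y) (T x)

theorem inner_self_re (x : E) : (inner ℂ x x : ℂ).re = ‖x‖ ^ 2 := by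
  rw [inner_self_eq_norm_sq_to_K]
  have : ((‖x‖ : ℂ)) ^ 2 = ((‖x‖ ^ 2 : ℝ) : ℂ) := by push_cast; rfl
  exact (congrArg Complex.re this).trans (ofReal_re _)

theorem df_self (T : E →L[ℂ] E) (x : E) : (df T x x).re = ‖x‖ ^ 2 - ‖T x‖ ^ 2 := by
  rw [df, sub_re, inner_self_re, inner_self_re]

theorem df_two (T : E →L[ℂ] E) (hT : ‖T‖ ≤ 1) (x z : E) :
    2 * (df T x z).re ≤ (df T x x).re + (df T z z).re := by
  have h1 : ‖T (x - z)‖ ^ 2 ≤ ‖x - z‖ ^ 2 := by
    have : ‖T (x - z)‖ ≤ ‖x - z‖ := by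
      calc ‖T (x - z)‖ ≤ ‖T‖ * ‖x - z‖ := T.le_opNorm _
        _ ≤ 1 * ‖x - z‖ := by gcongr
        _ = ‖x - z‖ := one_mul _
    gcongr
  rw [map_sub, norm_sub_sq (𝕜 := ℂ), norm_sub_sq (𝕜 := ℂ)] at h1
  rw [df_self, df_self, df, sub_re]
  have h2 : (inner ℂ z x : ℂ).re = RCLike.re (inner ℂ x z : ℂ) := inner_re_symm (𝕜 := ℂ) z x
  have h3 : (inner ℂ (T z) (T x) : ℂ).re = RCLike.re (inner ℂ (T x) (T z) : ℂ) :=
    inner_re_symm (𝕜 := ℂ) (T z) (T x)
  rw [h2, h3]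
  linarith

theorem df_smul_right (T : E →L[ℂ] E) (x y : E) (w : ℂ) :
    df T x (w • y) = (starRingEnd ℂ) w * df T x y := by
  rw [df, df, map_smul, inner_smul_left, inner_smul_left]
  ring

theorem exists_unimod (a : ℂ) : ∃ w : ℂ, ‖w‖ = 1 ∧ (starRingEnd ℂ) w * a = (‖a‖ : ℂ) := by
  by_cases h : a = 0
  · exact ⟨1, by simp, by simp [h]⟩
  · have hn : ‖a‖ ≠ 0 := norm_ne_zero_iff.mpr h
    refine ⟨a * ((‖a‖⁻¹ : ℝ) : ℂ), ?_, ?_⟩
    · rw [norm_mul, norm_real, norm_inv, norm_norm, mul_inv_cancel₀ hn]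
    · rw [map_mul, conj_ofReal, mul_assoc, mul_comm ((‖a‖⁻¹ : ℝ) : ℂ) a, ← mul_assoc,
        mul_comm ((starRingEnd ℂ) a) a, mul_conj, normSq_eq_norm_sq, ← ofReal_mul]
      congr 1
      field_simp

theorem df_norm (T : E →L[ℂ] E) (hT : ‖T‖ ≤ 1) (x y : E) :
    2 * ‖df T x y‖ ≤ (df T x x).re + (df T y y).re := by
  obtain ⟨w, hw, h⟩ := exists_unimod (df T x y)
  have h1 := df_two T hT x (w • y)
  rw [df_smul_right, h, ofReal_re, df_self T (w • y), norm_smul, map_smul, norm_smul, hw, one_mul,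
    one_mul, ← df_self] at h1
  exact h1

/-- the Fejer type kernel -/
noncomputable def K (T : E →L[ℂ] E) (w : ℂ) (x y : E) (L : ℕ) : ℂ :=
  inner ℂ (ps T w y L) (ps T w x L) + ∑ i ∈ range L, df T (ps T w x i) (ps T w y i)

theorem K_norm (T : E →L[ℂ] E) (hT : ‖T‖ ≤ 1) (w : ℂ) (x y : E) (L : ℕ) :
    2 * ‖K T w x y L‖ ≤ (K T w x x L).re + (K T w y y L).re := by
  unfold K
  rw [add_re, add_re, inner_self_re, inner_self_re, re_sum, re_sum]
  have h1 : ‖(inner ℂ (ps T w y L) (ps T w x L) : ℂ)‖ ≤ ‖ps T w y L‖ * ‖ps T w x L‖ :=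
    norm_inner_le_norm _ _
  have h2 : 2 * ‖∑ i ∈ range L, df T (ps T w x i) (ps T w y i)‖ ≤
      ∑ i ∈ range L, (df T (ps T w x i) (ps T w x i)).re +
        ∑ i ∈ range L, (df T (ps T w y i) (ps T w y i)).re := by
    calc 2 * ‖∑ i ∈ range L, df T (ps T w x i) (ps T w y i)‖
        ≤ 2 * ∑ i ∈ range L, ‖df T (ps T w x i) (ps T w y i)‖ := by
          gcongr
          exact norm_sum_le _ _
      _ = ∑ i ∈ range L, 2 * ‖df T (ps T w x i) (ps T w y i)‖ := by rw [mul_sum]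
      _ ≤ ∑ i ∈ range L, ((df T (ps T w x i) (ps T w x i)).re +
            (df T (ps T w y i) (ps T w y i)).re) := sum_le_sum fun i _ => df_norm T hT _ _
      _ = _ := sum_add_distrib
  have h3 := norm_add_le (inner ℂ (ps T w y L) (ps T w x L) : ℂ)
    (∑ i ∈ range L, df T (ps T w x i) (ps T w y i))
  nlinarith [sq_nonneg (‖ps T w y L‖ - ‖ps T w x L‖)]

theorem K_eq (T : E →L[ℂ] E) (w : ℂ) (hw : (starRingEnd ℂ) w * w = 1) (x y : E) (L : ℕ) :
    K T w x y L = ((L : ℂ) + 1) * inner ℂ y x +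
      ∑ i ∈ range L, (inner ℂ y (w • T (ps T w x i)) + inner ℂ (w • T (ps T w y i)) x) := by
  induction L with
  | zero => simp [K, ps]
  | succ L ih =>
    have e1 : K T w x y (L + 1) = K T w x y L + inner ℂ y x +
        (inner ℂ y (w • T (ps T w x L)) + inner ℂ (w • T (ps T w y L)) x) := by
      unfold K
      rw [sum_range_succ, ps, ps, inner_add_left, inner_add_right, inner_add_right, df]
      have : (inner ℂ (w • T (ps T w y L)) (w • T (ps T w x L)) : ℂ) =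
          inner ℂ (T (ps T w y L)) (T (ps T w x L)) := by
        rw [inner_smul_left, inner_smul_right, ← mul_assoc, hw, one_mul]
      rw [this]
      ring
    rw [e1, ih, sum_range_succ]
    push_cast
    ring

/-- orthogonality, first form -/
theorem o1 (p : ℂ[X]) (m k : ℕ) (hp : p.natDegree < m) (hk : k < m) :
    ∑ j ∈ range m, p.eval (exp (2 * Real.pi * I / m) ^ j) *
      ((starRingEnd ℂ) (exp (2 * Real.pi * I / m) ^ j)) ^ k = m * p.coeff k := by
  have h1 : ∀ j ∈ range m, p.eval (exp (2 * Real.pi * I / m) ^ j) *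
      ((starRingEnd ℂ) (exp (2 * Real.pi * I / m) ^ j)) ^ k =
      ∑ n ∈ range m, p.coeff n * ((exp (2 * Real.pi * I / m) ^ j) ^ n *
        (starRingEnd ℂ) ((exp (2 * Real.pi * I / m) ^ j) ^ k)) := by
    intro j _
    rw [eval_eq_sum_range' hp, sum_mul]
    refine sum_congr rfl fun n _ => ?_
    rw [map_pow (starRingEnd ℂ) (exp (2 * Real.pi * I / m) ^ j) k]
    ring
  rw [sum_congr rfl h1, sum_comm]
  have h2 : ∀ n ∈ range m, ∑ j ∈ range m, p.coeff n * ((exp (2 * Real.pi * I / m) ^ j) ^ n *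
        (starRingEnd ℂ) ((exp (2 * Real.pi * I / m) ^ j) ^ k)) =
      if n = k then m * p.coeff k else 0 := by
    intro n hn
    rw [← mul_sum, W753.CZ.orth m n k (mem_range.1 hn) hk]
    split_ifs with h
    · rw [h]; ring
    · ring
  rw [sum_congr rfl h2, sum_ite_eq' (range m) k, if_pos (mem_range.2 hk)]

/-- orthogonality, second form -/
theorem o2 (p : ℂ[X]) (m k : ℕ) (hk : 1 ≤ k) (hp : p.natDegree + k < m) :
    ∑ j ∈ range m, p.eval (exp (2 * Real.pi * I / m) ^ j) *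
      (exp (2 * Real.pi * I / m) ^ j) ^ k = 0 := by
  have h1 : ∀ j ∈ range m, p.eval (exp (2 * Real.pi * I / m) ^ j) *
      (exp (2 * Real.pi * I / m) ^ j) ^ k =
      ∑ n ∈ range (p.natDegree + 1), p.coeff n * ((exp (2 * Real.pi * I / m) ^ j) ^ (n + k) *
        (starRingEnd ℂ) ((exp (2 * Real.pi * I / m) ^ j) ^ 0)) := by
    intro j _
    rw [eval_eq_sum_range, sum_mul]
    refine sum_congr rfl fun n _ => ?_
    rw [pow_zero, map_one, pow_add]
    ring
  rw [sum_congr rfl h1, sum_comm]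
  refine sum_eq_zero fun n hn => ?_
  have hn' := mem_range.1 hn
  rw [← mul_sum, W753.CZ.orth m (n + k) 0 (by omega) (by omega), if_neg (by omega), mul_zero]

/-- partial sums of the polynomial -/
noncomputable def sp (T : E →L[ℂ] E) (p : ℂ[X]) (x : E) (i : ℕ) : E :=
  ∑ k ∈ range (i + 1), p.coeff k • (T ^ k) x

theorem main_id (T : E →L[ℂ] E) (p : ℂ[X]) (x y : E) (L m : ℕ) (hm : p.natDegree + L < m) :
    ∑ j ∈ range m, p.eval (exp (2 * Real.pi * I / m) ^ j) *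
      K T ((starRingEnd ℂ) (exp (2 * Real.pi * I / m) ^ j)) x y L =
    m * ∑ i ∈ range (L + 1), inner ℂ y (sp T p x i) := by
  have hm0 : m ≠ 0 := by omega
  have hnorm : ‖exp (2 * Real.pi * I / m)‖ = 1 := by
    have : (2 * Real.pi * I / m : ℂ) = ((2 * Real.pi / m : ℝ) : ℂ) * I := by push_cast; ring
    rw [this, Complex.norm_exp_ofReal_mul_I]
  have hw : ∀ j : ℕ, (starRingEnd ℂ) ((starRingEnd ℂ) (exp (2 * Real.pi * I / m) ^ j)) *
      (starRingEnd ℂ) (exp (2 * Real.pi * I / m) ^ j) = 1 := by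
    intro j
    rw [conj_conj, mul_conj, normSq_eq_norm_sq, norm_pow, hnorm]
    simp
  have h1 : ∀ j ∈ range m, p.eval (exp (2 * Real.pi * I / m) ^ j) *
      K T ((starRingEnd ℂ) (exp (2 * Real.pi * I / m) ^ j)) x y L =
      (p.eval (exp (2 * Real.pi * I / m) ^ j) *
        ((starRingEnd ℂ) (exp (2 * Real.pi * I / m) ^ j)) ^ 0) * (((L : ℂ) + 1) * inner ℂ y x) +
      ∑ i ∈ range L, (∑ k ∈ range (i + 1), (p.eval (exp (2 * Real.pi * I / m) ^ j) *
          ((starRingEnd ℂ) (exp (2 * Real.pi * I / m) ^ j)) ^ (k + 1)) *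
            inner ℂ y ((T ^ (k + 1)) x) +
        ∑ k ∈ range (i + 1), (p.eval (exp (2 * Real.pi * I / m) ^ j) *
          (exp (2 * Real.pi * I / m) ^ j) ^ (k + 1)) * inner ℂ ((T ^ (k + 1)) y) x) := by
    intro j _
    rw [K_eq T _ (hw j), mul_add, pow_zero, mul_one, mul_sum]
    congr 1
    refine sum_congr rfl fun i _ => ?_
    rw [ps_eq, ps_eq, map_sum, map_sum, smul_sum, smul_sum, inner_sum, sum_inner, mul_add, mul_sum,
      mul_sum]
    congr 1
    · refine sum_congr rfl fun k _ => ?_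
      rw [map_smul, smul_smul, ← pow_succ', inner_smul_right, ← mul_assoc, pow_succ' T k]
      rfl
    · refine sum_congr rfl fun k _ => ?_
      rw [map_smul, smul_smul, ← pow_succ', inner_smul_left, ← mul_assoc, pow_succ' T k, map_pow,
        conj_conj]
      rfl
  rw [sum_congr rfl h1, sum_add_distrib, ← sum_mul, o1 p m 0 (by omega) (by omega), sum_comm]
  have h2 : ∀ i ∈ range L, ∑ j ∈ range m, (∑ k ∈ range (i + 1),
      (p.eval (exp (2 * Real.pi * I / m) ^ j) *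
          ((starRingEnd ℂ) (exp (2 * Real.pi * I / m) ^ j)) ^ (k + 1)) *
            inner ℂ y ((T ^ (k + 1)) x) +
        ∑ k ∈ range (i + 1), (p.eval (exp (2 * Real.pi * I / m) ^ j) *
          (exp (2 * Real.pi * I / m) ^ j) ^ (k + 1)) * inner ℂ ((T ^ (k + 1)) y) x) =
      m * ∑ k ∈ range (i + 1), p.coeff (k + 1) * inner ℂ y ((T ^ (k + 1)) x) := by
    intro i hi
    have hi' := mem_range.1 hi
    rw [sum_add_distrib, sum_comm]
    have h3 : ∑ j ∈ range m, ∑ k ∈ range (i + 1), (p.eval (exp (2 * Real.pi * I / m) ^ j) *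
          (exp (2 * Real.pi * I / m) ^ j) ^ (k + 1)) * inner ℂ ((T ^ (k + 1)) y) x = 0 := by
      rw [sum_comm]
      refine sum_eq_zero fun k hk => ?_
      have hk' := mem_range.1 hk
      rw [← sum_mul, o2 p m (k + 1) (by omega) (by omega), zero_mul]
    rw [h3, add_zero, mul_sum]
    refine sum_congr rfl fun k hk => ?_
    have hk' := mem_range.1 hk
    rw [← sum_mul, o1 p m (k + 1) (by omega) (by omega)]
    ring
  rw [sum_congr rfl h2, ← mul_sum, mul_assoc, ← mul_add]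
  congr 1
  have h4 : ∀ i, (inner ℂ y (sp T p x i) : ℂ) = p.coeff 0 * inner ℂ y x +
      ∑ k ∈ range i, p.coeff (k + 1) * inner ℂ y ((T ^ (k + 1)) x) := by
    intro i
    unfold sp
    rw [inner_sum, sum_range_succ', add_comm]
    congr 1
    · rw [inner_smul_right, pow_zero]; rfl
    · exact sum_congr rfl fun k _ => by rw [inner_smul_right]
  rw [sum_congr rfl fun i _ => h4 i, sum_add_distrib, sum_const, card_range, sum_range_succ' _ L,
    sum_range_zero, add_zero, nsmul_eq_mul]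
  push_cast
  ring

theorem avg_bound (T : E →L[ℂ] E) (hT : ‖T‖ ≤ 1) (p : ℂ[X]) (M : ℝ)
    (hM : ∀ z : ℂ, ‖z‖ = 1 → ‖p.eval z‖ ≤ M) (x y : E) (L : ℕ) :
    ‖∑ i ∈ range (L + 1), (inner ℂ y (sp T p x i) : ℂ)‖ ≤
      M * ((L + 1) * ((‖x‖ ^ 2 + ‖y‖ ^ 2) / 2)) := by
  set m := p.natDegree + L + 1 with hm
  have hm0 : (0 : ℝ) < m := by rw [hm]; push_cast; positivity
  have hnorm : ∀ j : ℕ, ‖exp (2 * Real.pi * I / m) ^ j‖ = 1 := by
    intro j
    have : (2 * Real.pi * I / m : ℂ) = ((2 * Real.pi / m : ℝ) : ℂ) * I := by push_cast; ring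
    rw [norm_pow, this, Complex.norm_exp_ofReal_mul_I, one_pow]
  have h1 := main_id T p x y L m (by omega)
  have hone : ∀ z : E, ∑ j ∈ range m,
      (K T ((starRingEnd ℂ) (exp (2 * Real.pi * I / m) ^ j)) z z L).re = m * ((L + 1) * ‖z‖ ^ 2) := by
    intro z
    have h2 := main_id T 1 z z L m (by rw [natDegree_one]; omega)
    have h3 : ∀ i, sp T 1 z i = z := by
      intro i
      unfold sp
      rw [sum_range_succ']
      simp [coeff_one]
    simp only [h3] at h2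
    rw [sum_const, card_range, nsmul_eq_mul] at h2
    have h4 := congrArg Complex.re h2
    rw [re_sum] at h4
    simp only [eval_one, one_mul] at h4
    rw [h4]
    have h5 : ((m : ℂ) * (((L + 1 : ℕ) : ℂ) * inner ℂ z z)) =
        (((m : ℝ) * ((L + 1 : ℕ) : ℝ) : ℝ) : ℂ) * inner ℂ z z := by push_cast; ring
    rw [h5, re_ofReal_mul, inner_self_re]
    push_cast
    ring
  have h6 : ‖∑ j ∈ range m, p.eval (exp (2 * Real.pi * I / m) ^ j) *
      K T ((starRingEnd ℂ) (exp (2 * Real.pi * I / m) ^ j)) x y L‖ ≤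
      M * (m * ((L + 1) * ((‖x‖ ^ 2 + ‖y‖ ^ 2) / 2))) := by
    have hM0 : 0 ≤ M := (norm_nonneg _).trans (hM 1 (by simp))
    calc _ ≤ ∑ j ∈ range m, ‖p.eval (exp (2 * Real.pi * I / m) ^ j) *
          K T ((starRingEnd ℂ) (exp (2 * Real.pi * I / m) ^ j)) x y L‖ := norm_sum_le _ _
      _ ≤ ∑ j ∈ range m, M * (((K T ((starRingEnd ℂ) (exp (2 * Real.pi * I / m) ^ j)) x x L).re +
          (K T ((starRingEnd ℂ) (exp (2 * Real.pi * I / m) ^ j)) y y L).re) / 2) := by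
          refine sum_le_sum fun j _ => ?_
          rw [norm_mul]
          have h7 := K_norm T hT ((starRingEnd ℂ) (exp (2 * Real.pi * I / m) ^ j)) x y L
          have h8 : ‖K T ((starRingEnd ℂ) (exp (2 * Real.pi * I / m) ^ j)) x y L‖ ≤
            ((K T ((starRingEnd ℂ) (exp (2 * Real.pi * I / m) ^ j)) x x L).re +
          (K T ((starRingEnd ℂ) (exp (2 * Real.pi * I / m) ^ j)) y y L).re) / 2 := by linarith
          exact mul_le_mul (hM _ (hnorm j)) h8 (norm_nonneg _) hM0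
      _ = _ := by
          rw [← mul_sum, ← sum_div, sum_add_distrib, hone, hone]
          ring
  rw [h1, norm_mul, Complex.norm_natCast] at h6
  have h9 : (m : ℝ) * ‖∑ i ∈ range (L + 1), (inner ℂ y (sp T p x i) : ℂ)‖ ≤
      m * (M * ((L + 1) * ((‖x‖ ^ 2 + ‖y‖ ^ 2) / 2))) := by
    calc _ ≤ _ := h6
      _ = _ := by ring
  exact le_of_mul_le_mul_left h9 hm0

theorem form_bound (T : E →L[ℂ] E) (hT : ‖T‖ ≤ 1) (p : ℂ[X]) (M : ℝ)
    (hM : ∀ z : ℂ, ‖z‖ = 1 → ‖p.eval z‖ ≤ M) (x y : E) :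
    ‖(inner ℂ y (aeval T p x) : ℂ)‖ ≤ M * ((‖x‖ ^ 2 + ‖y‖ ^ 2) / 2) := by
  have h1 : Filter.Tendsto (fun i => (inner ℂ y (sp T p x i) : ℂ)) Filter.atTop
      (nhds (inner ℂ y (aeval T p x))) := by
    apply tendsto_const_nhds.congr'
    filter_upwards [Filter.eventually_ge_atTop p.natDegree] with i hi
    congr 1
    rw [aeval_eq_sum_range' (Nat.lt_succ_of_le hi), sp, _root_.sum_apply]
    rfl
  have h2 := h1.cesaro_smul
  have h3 := h2.norm
  refine le_of_tendsto h3 ?_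
  filter_upwards [Filter.eventually_gt_atTop 0] with n hn
  obtain ⟨L, rfl⟩ : ∃ L, n = L + 1 := ⟨n - 1, by omega⟩
  have h4 := avg_bound T hT p M hM x y L
  rw [norm_smul, norm_inv, Real.norm_of_nonneg (by positivity)]
  have hL : (0 : ℝ) < ((L + 1 : ℕ) : ℝ) := by positivity
  rw [inv_mul_le_iff₀ hL]
  push_cast
  linarith

/-- **von Neumann's inequality** for polynomials. -/
theorem vN (T : E →L[ℂ] E) (hT : ‖T‖ ≤ 1) (p : ℂ[X]) (M : ℝ)
    (hM : ∀ z : ℂ, ‖z‖ = 1 → ‖p.eval z‖ ≤ M) : ‖aeval T p‖ ≤ M := by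
  have hM0 : 0 ≤ M := (norm_nonneg _).trans (hM 1 (by simp))
  refine ContinuousLinearMap.opNorm_le_bound _ hM0 fun x => ?_
  set v := aeval T p x with hv
  by_cases hv0 : v = 0
  · rw [hv0, norm_zero]; positivity
  by_cases hx0 : x = 0
  · rw [hv, hx0, map_zero, norm_zero]; positivity
  have hvn : 0 < ‖v‖ := norm_pos_iff.2 hv0
  have hxn : 0 < ‖x‖ := norm_pos_iff.2 hx0
  have h := form_bound T hT p M hM x (((‖x‖ / ‖v‖ : ℝ) : ℂ) • v)
  rw [← hv, inner_smul_left, norm_mul, conj_ofReal, norm_real, Real.norm_of_nonneg (by positivity),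
    inner_self_eq_norm_sq_to_K, norm_smul, norm_real, Real.norm_of_nonneg (by positivity)] at h
  have h2 : ‖((‖v‖ : ℂ)) ^ 2‖ = ‖v‖ ^ 2 := by simp
  have h3 : ‖x‖ / ‖v‖ * ‖v‖ = ‖x‖ := by field_simp
  rw [h3] at h
  have h4 : ‖x‖ / ‖v‖ * ‖v‖ ^ 2 ≤ M * ((‖x‖ ^ 2 + ‖x‖ ^ 2) / 2) := by
    rw [← h2]; exact h
  have h5 : ‖x‖ / ‖v‖ * ‖v‖ ^ 2 = ‖x‖ * ‖v‖ := by field_simp
  rw [h5] at h4
  have h6 : ‖x‖ * ‖v‖ ≤ ‖x‖ * (M * ‖x‖) := by nlinarith
  exact le_of_mul_le_mul_left h6 hxn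

end Pool.Agent.J4.H40.QN
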